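import Pool.Agent.J4H50.YO.Stm

/-!
# Project YO: other names of the variables (RN)
-/

set_option autoImplicit false

namespace Pool.Agent.J4H19.YO

open Pool.Agent.J4H50.YO MvPowerSeries

section

variable {σ τ : Type} [Finite σ] [Finite τ] (e : σ ≃ τ)

/-- renaming, as a linear map -/
noncomputable def rn : MvPowerSeries σ ℂ →ₐ[ℂ] MvPowerSeries τ ℂ := rename e

lemma coeff_rn (p : MvPowerSeries σ ℂ) (y : τ →₀ ℕ) :
    coeff y (rn e p) = coeff (Finsupp.mapDomain e.symm y) p := by
  have h := coeff_embDomain_rename e.toEmbedding p (Finsupp.mapDomain e.symm y)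
  rw [Finsupp.embDomain_eq_mapDomain, ← Finsupp.mapDomain_comp] at h
  have h2 : (⇑e.toEmbedding ∘ ⇑e.symm) = id := by
    funext t
    simp
  rw [h2, Finsupp.mapDomain_id] at h
  exact h

lemma degree_map (y : τ →₀ ℕ) : (Finsupp.mapDomain e.symm y).degree = y.degree := by
  induction y using Finsupp.induction_linear with
  | zero => simp
  | add f g hf hg => rw [Finsupp.mapDomain_add, map_add, map_add, hf, hg]
  | single a b => rw [Finsupp.mapDomain_single, Finsupp.degree_single, Finsupp.degree_single]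

lemma rn_pderiv (p : MvPowerSeries σ ℂ) (t : τ) :
    rn e (pderiv ℂ (e.symm t) p) = pderiv ℂ t (rn e p) := by
  ext y
  rw [coeff_rn, coeff_pderiv, coeff_pderiv, coeff_rn, Finsupp.mapDomain_add,
    Finsupp.mapDomain_single]
  congr 2
  rw [Finsupp.mapDomain_apply e.symm.injective]

lemma constantCoeff_rn (p : MvPowerSeries σ ℂ) : constantCoeff (rn e p) = constantCoeff p := by
  rw [← coeff_zero_eq_constantCoeff_apply, coeff_rn, Finsupp.mapDomain_zero,
    coeff_zero_eq_constantCoeff_apply]

lemma rn_rn (p : MvPowerSeries τ ℂ) : rn e (rn e.symm p) = p := by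
  ext y
  rw [coeff_rn, coeff_rn, ← Finsupp.mapDomain_comp]
  have h2 : (⇑e.symm.symm ∘ ⇑e.symm) = id := by
    funext t
    simp
  rw [h2, Finsupp.mapDomain_id]

end

theorem t_RN : S_RN := by
  intro σ τ _ ε f s
  have hτ : Finite τ := Finite.of_equiv σ ε
  have hfr : rename ε f = rn ε f := rfl
  rw [hfr]
  have hback : rn ε.symm (rn ε f) = f := by
    have := rn_rn ε.symm f
    simpa using this
  refine ⟨?_, ?_⟩
  · rintro ⟨α, hα, hα0⟩
    refine ⟨fun k => (α k).comp (rn ε.symm).toLinearMap, ⟨fun k => ?_, fun k q => ?_,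
      fun k i q => ?_⟩, fun q => ?_⟩
    · obtain ⟨N, hN⟩ := hα.cts k
      refine ⟨N, fun q hq => ?_⟩
      change α k (rn ε.symm q) = 0
      apply hN
      intro x hx
      rw [coeff_rn]
      apply hq
      rw [degree_map]
      exact hx
    · change α (k + 1) (rn ε.symm (rn ε f * q)) = α k (rn ε.symm q)
      rw [map_mul, hback, hα.sft]
    · change α k (rn ε.symm (pderiv ℂ i q)) +
        (s - k) * α (k + 1) (rn ε.symm (pderiv ℂ i (rn ε f) * q)) = 0
      have h1 : ∀ p : MvPowerSeries τ ℂ, rn ε.symm (pderiv ℂ i p) =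
          pderiv ℂ (ε.symm i) (rn ε.symm p) := by
        intro p
        have := rn_pderiv ε.symm p (ε.symm i)
        simpa using this
      rw [map_mul, h1, h1, hback]
      exact hα.clo k _ _
    · change α 0 (rn ε.symm q) = _
      rw [hα0, constantCoeff_rn]
  · intro hf x hx
    rw [coeff_rn]
    apply hf
    rw [degree_map]
    exact hx

end Pool.Agent.J4H19.YO
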