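import Pool.Agent.J4H50.YO.Stm

/-!
# Project YO: units (UN), coordinates (CO), the cone (CN)
-/

set_option autoImplicit false

namespace Pool.Agent.J4H19.YO

open Pool.Agent.J4H50.YO Pool.Agent.J4H50.TF MvPowerSeries

/-- iterating `sft` -/
lemma sft_pow {σ : Type} {s : ℂ} {F : MvPowerSeries σ ℂ} {β : ℕ → MvPowerSeries σ ℂ →ₗ[ℂ] ℂ}
    (h : DR s F β) (k i : ℕ) (q : MvPowerSeries σ ℂ) : β (k + i) (F ^ i * q) = β k q := by
  induction i with
  | zero => simp
  | succ i ih =>
    rw [← add_assoc, pow_succ', mul_assoc, h.sft, ih]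

/-- a power of a power series without constant term has no terms of small degree -/
lemma coeff_pow_mul {σ : Type} (w q : MvPowerSeries σ ℂ) (hw : constantCoeff w = 0) (i : ℕ)
    (x : σ →₀ ℕ) (hx : x.degree < i) : coeff x (w ^ i * q) = 0 := by
  classical
  induction i generalizing x with
  | zero => omega
  | succ i ih =>
    rw [pow_succ', mul_assoc, coeff_mul]
    refine Finset.sum_eq_zero fun y hy => ?_
    rw [Finset.HasAntidiagonal.mem_antidiagonal] at hy
    by_cases h0 : y.1 = 0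
    · rw [h0, coeff_zero_eq_constantCoeff_apply, hw, zero_mul]
    · rw [ih y.2, mul_zero]
      have h1 : y.1.degree + y.2.degree = x.degree := by rw [← map_add, hy]
      have h2 : y.1.degree ≠ 0 := fun h => h0 ((Finsupp.degree_eq_zero_iff _).1 h)
      omega

/-- rescaling of the equation -/
lemma DR_smul {σ : Type} {s : ℂ} {F : MvPowerSeries σ ℂ} {β : ℕ → MvPowerSeries σ ℂ →ₗ[ℂ] ℂ}
    (h : DR s F β) (c : ℂ) (hc : c ≠ 0) : DR s (C c * F) (fun k => (c⁻¹) ^ k • β k) := by
  have hC : ∀ q : MvPowerSeries σ ℂ, ∀ k, β k (C c * q) = c * β k q := by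
    intro q k
    rw [← smul_eq_C_mul, map_smul, smul_eq_mul]
  refine ⟨fun k => ?_, fun k q => ?_, fun k i q => ?_⟩
  · obtain ⟨N, hN⟩ := h.cts k
    exact ⟨N, fun q hq => by rw [LinearMap.smul_apply, hN q hq, smul_zero]⟩
  · rw [LinearMap.smul_apply, LinearMap.smul_apply, mul_assoc, hC, h.sft, smul_eq_mul, smul_eq_mul,
      pow_succ]
    field_simp
  · have h1 := h.clo k i q
    have h2 : pderiv ℂ i (C c * F) = C c * pderiv ℂ i F := by
      rw [← smul_eq_C_mul, ← smul_eq_C_mul, (pderiv ℂ i).map_smul]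
    rw [LinearMap.smul_apply, LinearMap.smul_apply, h2, mul_assoc, hC, smul_eq_mul, smul_eq_mul,
      pow_succ]
    have h3 : (c⁻¹) ^ k * (β k (pderiv ℂ i q)) + (s - k) * ((c⁻¹) ^ k * c⁻¹ *
        (c * β (k + 1) (pderiv ℂ i F * q))) =
        (c⁻¹) ^ k * (β k (pderiv ℂ i q) + (s - k) * β (k + 1) (pderiv ℂ i F * q)) := by
      field_simp
    rw [h3, h1, mul_zero]

/-- multiples of a functional -/
lemma DR_const {σ : Type} {s : ℂ} {F : MvPowerSeries σ ℂ} {β : ℕ → MvPowerSeries σ ℂ →ₗ[ℂ] ℂ}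
    (h : DR s F β) (c : ℂ) : DR s F (fun k => c • β k) := by
  refine ⟨fun k => ?_, fun k q => ?_, fun k i q => ?_⟩
  · obtain ⟨N, hN⟩ := h.cts k
    exact ⟨N, fun q hq => by rw [LinearMap.smul_apply, hN q hq, smul_zero]⟩
  · rw [LinearMap.smul_apply, LinearMap.smul_apply, h.sft]
  · have h1 := h.clo k i q
    rw [LinearMap.smul_apply, LinearMap.smul_apply, smul_eq_mul, smul_eq_mul]
    linear_combination c * h1

theorem t_UN : S_PT → S_UN := by
  intro hPT σ F u s β hβ hu
  set c : ℂ := constantCoeff u with hcd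
  have hc : c ≠ 0 := by
    have := (MvPowerSeries.isUnit_iff_constantCoeff.1 hu)
    exact this.ne_zero
  set w : MvPowerSeries σ ℂ := C c⁻¹ * u - 1 with hwd
  have hw0 : constantCoeff w = 0 := by
    rw [hwd, map_sub, map_mul, constantCoeff_C, map_one, ← hcd, inv_mul_cancel₀ hc, sub_self]
  obtain ⟨α, hα, hα0⟩ := hPT F (w * F) s β hβ (by
    intro k
    obtain ⟨N, hN⟩ := hβ.cts k
    refine ⟨N, fun i hi q => ?_⟩
    rw [mul_pow, mul_comm (w ^ i), mul_assoc, sft_pow hβ]
    apply hN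
    intro x hx
    exact coeff_pow_mul w q hw0 i x (by omega))
  have hF : C c * (F + w * F) = u * F := by
    rw [hwd]
    have : (C c : MvPowerSeries σ ℂ) * C c⁻¹ = 1 := by
      rw [← map_mul, mul_inv_cancel₀ hc, map_one]
    linear_combination (u * F) * this
  have h1 := DR_smul hα c hc
  rw [hF] at h1
  refine ⟨_, h1, fun q hq => ?_⟩
  rw [pow_zero, one_smul]
  apply hα0
  intro i hi
  rw [mul_pow, mul_comm (w ^ i), mul_assoc]
  have h2 := sft_pow hβ 0 i (w ^ i * q)
  rw [zero_add] at h2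
  rw [h2]
  apply hq
  rw [map_pow, hw0, zero_pow (by omega)]

lemma deg_one {σ : Type} (x : σ →₀ ℕ) (h : x.degree = 1) : ∃ j, x = Finsupp.single j 1 := by
  have h0 : x ≠ 0 := by
    rintro rfl
    simp at h
  obtain ⟨j, hj⟩ := Finsupp.support_nonempty_iff.2 h0
  refine ⟨j, ?_⟩
  have h1 : Finsupp.single j 1 ≤ x := by
    classical
    intro i
    rw [Finsupp.single_apply]
    split_ifs with h2
    · subst h2
      exact Nat.one_le_iff_ne_zero.2 (Finsupp.mem_support_iff.1 hj)
    · exact Nat.zero_le _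
  obtain ⟨y, hy⟩ := exists_add_of_le h1
  have h3 : y.degree = 0 := by
    have h4 := congrArg Finsupp.degree hy
    rw [map_add, h, Finsupp.degree_single] at h4
    omega
  rw [(Finsupp.degree_eq_zero_iff _).1 h3, add_zero] at hy
  exact hy

/-- the linear coefficients of a substituted power series -/
lemma subst_lin {σ : Type} [Fintype σ] [DecidableEq σ] (φ : σ → MvPowerSeries σ ℂ)
    (h0 : ∀ i, constantCoeff (φ i) = 0) (f : MvPowerSeries σ ℂ) (j : σ) :
    coeff (Finsupp.single j 1) (subst φ f) =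
      ∑ i, coeff (Finsupp.single i 1) f * coeff (Finsupp.single j 1) (φ i) := by
  have hs : HasSubst φ := hasSubst_of_constantCoeff_zero h0
  have hlin : ∀ (g : MvPowerSeries σ ℂ) (l : σ),
      constantCoeff (pderiv ℂ l g) = coeff (Finsupp.single l 1) g := by
    intro g l
    rw [← coeff_zero_eq_constantCoeff_apply, coeff_pderiv]
    simp
  have h1 := congrArg constantCoeff (Pool.Agent.W574.SM.pderiv_subst hs f j)
  rw [hlin, map_sum] at h1
  rw [h1]
  refine Finset.sum_congr rfl fun i _ => ?_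
  rw [map_mul, hlin, Pool.Agent.W574.SM.constantCoeff_subst' hs h0, hlin]

theorem t_CO : S_UN → S_PU → S_CO := by
  intro hUN hPU σ _ _ f f' φ u s hφ hu hsub
  have hs : HasSubst φ := hasSubst_of_constantCoeff_zero hφ.1
  refine ⟨?_, ?_⟩
  · rintro ⟨β, hβ, hβ0⟩
    obtain ⟨α₁, hα₁, h1⟩ := hUN f u s β hβ hu
    have h2 : ∀ q, α₁ 0 q = constantCoeff q := by
      intro q
      rw [h1 q, hβ0]
      intro w hw
      rw [hβ0, map_mul, hw, zero_mul]
    obtain ⟨α₂, hα₂, h3⟩ := hPU f' (u * f) φ s α₁ hφ.1 hsub hα₁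
    set δ : ℂ := (Matrix.of fun i j => coeff (Finsupp.single j 1) (φ i)).det with hδ
    have h4 : ∀ q, α₂ 0 q = δ * constantCoeff q := by
      intro q
      rw [h3, h2, map_mul, Pool.Agent.W574.SM.constantCoeff_subst' hs hφ.1, RingHom.map_det]
      congr 2
      ext l m
      rw [RingHom.mapMatrix_apply, Matrix.map_apply, Matrix.of_apply, Matrix.of_apply,
        ← coeff_zero_eq_constantCoeff_apply, coeff_pderiv]
      simp
    refine ⟨fun k => δ⁻¹ • α₂ k, DR_const hα₂ _, fun q => ?_⟩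
    rw [LinearMap.smul_apply, h4, smul_eq_mul, ← mul_assoc, inv_mul_cancel₀ hφ.2, one_mul]
  · intro hf x hx
    have hsing : Sing (u * f) := by
      intro x hx
      rw [coeff_mul]
      refine Finset.sum_eq_zero fun y hy => ?_
      rw [Finset.HasAntidiagonal.mem_antidiagonal] at hy
      rw [hf y.2, mul_zero]
      have h1 : y.1.degree + y.2.degree = x.degree := by rw [← map_add, hy]
      omega
    have hx1 : x = 0 ∨ ∃ j, x = Finsupp.single j 1 := by
      rcases Nat.lt_or_ge 0 x.degree with h | h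
      · right
        have h2 : x.degree = 1 := by omega
        exact deg_one x h2
      · left
        exact (Finsupp.degree_eq_zero_iff _).1 (by omega)
    rcases hx1 with rfl | ⟨j, rfl⟩
    · rw [coeff_zero_eq_constantCoeff_apply, ← Pool.Agent.W574.SM.constantCoeff_subst' hs hφ.1, hsub,
        ← coeff_zero_eq_constantCoeff_apply]
      exact hsing 0 (by simp)
    · set v : σ → ℂ := fun i => coeff (Finsupp.single i 1) f' with hv
      have h5 : Matrix.vecMul v (Matrix.of fun i j => coeff (Finsupp.single j 1) (φ i)) = 0 := by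
        funext m
        have h6 := subst_lin φ hφ.1 f' m
        rw [hsub, hsing _ (by simp)] at h6
        rw [Matrix.vecMul, dotProduct, Pi.zero_apply, h6]
        rfl
      have h7 := Matrix.eq_zero_of_vecMul_eq_zero hφ.2 h5
      exact congrFun h7 j

theorem t_CN : S_LM → S_UN → S_PU → S_CN := by
  intro hLM hUN hPU τ _ _ f Ψ J U g S s d k hd hk hS hs hi hΨ hJ hU hdet hsub hg0 hNV
  obtain ⟨V, hV, hV0⟩ := hLM g S s d k (Fintype.card τ + 1) hd hk (Nat.succ_le_succ (Nat.zero_le _))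
    hS hs hi hg0 hNV
  rw [Nat.add_sub_cancel] at hV0
  obtain ⟨V', hV', h1⟩ := hUN _ U s V hV hU
  have h2 : ∀ q, V' 0 (X none ^ Fintype.card τ * q) = constantCoeff q := by
    intro q
    rw [h1, hV0]
    intro w hw
    rw [mul_left_comm, hV0, map_mul, hw, zero_mul]
  obtain ⟨α, hα, h3⟩ := hPU f _ Ψ s V' hΨ hsub hV'
  have hsΨ : HasSubst Ψ := hasSubst_of_constantCoeff_zero hΨ
  have hJ0 : constantCoeff J ≠ 0 := (MvPowerSeries.isUnit_iff_constantCoeff.1 hJ).ne_zero
  refine ⟨fun m => (constantCoeff J)⁻¹ • α m, DR_const hα _, fun q => ?_⟩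
  rw [LinearMap.smul_apply, h3, hdet, mul_assoc, h2, map_mul,
    Pool.Agent.W574.SM.constantCoeff_subst' hsΨ hΨ, smul_eq_mul, ← mul_assoc,
    inv_mul_cancel₀ hJ0, one_mul]

end Pool.Agent.J4H19.YO
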